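import Pool.Agent.W345.GK.Cl2
import Pool.Agent.W672.GK.I5

/-! Project GK, part EMBD: embedding at infinity. -/

set_option autoImplicit false

open Polynomial Finset
open scoped TensorProduct nonZeroDivisors

namespace Pool.Agent.W765.GK.Embd

open Pool.Agent.W345.GK

/-- the embedding at infinity exists -/
theorem embd : S_C1 → S_CYB → S_I1 → S_EMBD := by
  intro hC1 hCYB hI1 k F Fc _ _ _ _ _ _ _ _ _ P c Lam hP hirr hL
  have hinj : Function.Injective (iA : k[X] →+* LS F) := Pool.Agent.W672.GK.iA_inj hI1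
  obtain ⟨Ψ, hcar, hΨm, -, -, -, -, hΨirr, -, -, -, -⟩ := hCYB k P hP hirr
  obtain ⟨-, -, -, -, h5⟩ := hC1 k
  have hP1 : ¬ P ∣ 1 := fun h => hirr.not_isUnit (isUnit_of_dvd_one h)
  have hlam1 : c.lam 1 ≠ 0 := fun h => hP1 ((c.zero_iff 1).mp h)
  have hLam1 : Lam 1 ≠ 0 := fun h => hP1 ((hL.zero_iff 1).mp h)
  -- in Fc
  have hΨ0 : aeval (c.lam 1) Ψ = 0 := by
    have h : aeval (c.lam 1) (car P) = 0 := (c.roots _).mpr ⟨1, rfl⟩
    rw [hcar, map_mul, aeval_X] at h
    exact (mul_eq_zero.mp h).resolve_left hlam1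
  have hlamcar : ∀ a : k[X], c.lam a = aeval (c.lam 1) (car a) := by
    intro a
    have h := h5 Fc c.lam c.add c.smul c.mulX a 1
    rwa [mul_one] at h
  -- in LS F
  have hLamcar : ∀ a : k[X], Lam a = eval₂ (iA : k[X] →+* LS F) (Lam 1) (car a) := by
    intro a
    let _ : Algebra k[X] (LS F) := (iA : k[X] →+* LS F).toAlgebra
    have h := h5 (LS F) Lam hL.add hL.smul hL.mulX a 1
    rw [mul_one] at h
    exact h
  have hΨL : eval₂ (iA : k[X] →+* LS F) (Lam 1) Ψ = 0 := by
    have h : eval₂ (iA : k[X] →+* LS F) (Lam 1) (car P) = 0 := by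
      rw [← hLamcar P]
      exact (hL.zero_iff P).mpr dvd_rfl
    rw [hcar, eval₂_mul, eval₂_X] at h
    exact (mul_eq_zero.mp h).resolve_left hLam1
  -- the field K
  set ψ : RatFunc k →+* LS F := IsFractionRing.lift (K := RatFunc k) hinj with hψ
  have hψa : ∀ a : k[X], ψ (algebraMap k[X] (RatFunc k) a) = iA a := fun a =>
    IsFractionRing.lift_algebraMap hinj a
  have hint : IsIntegral (RatFunc k) (c.lam 1) := Algebra.IsIntegral.isIntegral _
  have htop : Algebra.adjoin (RatFunc k) {c.lam 1} = ⊤ := by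
    rw [eq_top_iff]
    intro y _
    obtain ⟨b, f, hb, hbf⟩ := c.gen y
    have hb' : algebraMap k[X] (RatFunc k) b ≠ 0 := by
      intro h
      exact hb ((map_eq_zero_iff _ (IsFractionRing.injective k[X] (RatFunc k))).mp h)
    have hy : y = (algebraMap k[X] (RatFunc k) b)⁻¹ •
        aeval (c.lam 1) (f.map (algebraMap k[X] (RatFunc k))) := by
      rw [aeval_map_algebraMap, ← hbf, Algebra.smul_def, ← mul_assoc,
        IsScalarTower.algebraMap_apply k[X] (RatFunc k) Fc b, ← map_mul, inv_mul_cancel₀ hb',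
        map_one, one_mul]
    rw [hy]
    exact Subalgebra.smul_mem _ (aeval_mem_adjoin_singleton _ _) _
  have hmin : minpoly (RatFunc k) (c.lam 1) = Ψ.map (algebraMap k[X] (RatFunc k)) := by
    symm
    apply minpoly.eq_of_irreducible_of_monic hΨirr
    · rw [aeval_map_algebraMap, hΨ0]
    · exact hΨm.map _
  let _ : Algebra (RatFunc k) (LS F) := ψ.toAlgebra
  set pb := PowerBasis.ofAdjoinEqTop hint htop with hpb
  have hgen : pb.gen = c.lam 1 := PowerBasis.ofAdjoinEqTop_gen hint htop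
  have hroot : aeval (Lam 1) (minpoly (RatFunc k) pb.gen) = 0 := by
    rw [hgen, hmin, aeval_def, eval₂_map]
    have : (algebraMap (RatFunc k) (LS F)).comp (algebraMap k[X] (RatFunc k)) =
        (iA : k[X] →+* LS F) := RingHom.ext fun a => hψa a
    rw [this]
    exact hΨL
  set ι : Fc →ₐ[RatFunc k] LS F := pb.lift (Lam 1) hroot with hι
  have hιgen : ι (c.lam 1) = Lam 1 := by
    rw [← hgen]
    exact pb.lift_gen _ _
  have hbase : ∀ a : k[X], ι (algebraMap k[X] Fc a) = iA a := by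
    intro a
    rw [IsScalarTower.algebraMap_apply k[X] (RatFunc k) Fc, AlgHom.commutes]
    exact hψa a
  have hev : ∀ f : (k[X])[X], ι (aeval (c.lam 1) f) =
      eval₂ (iA : k[X] →+* LS F) (Lam 1) f := by
    intro f
    have h := hom_eval₂ f (algebraMap k[X] Fc) (ι : Fc →+* LS F) (c.lam 1)
    rw [aeval_def]
    have h2 : ((ι : Fc →+* LS F)).comp (algebraMap k[X] Fc) = (iA : k[X] →+* LS F) :=
      RingHom.ext fun a => hbase a
    rw [h2] at h
    have h3 : (ι : Fc →+* LS F) (c.lam 1) = Lam 1 := hιgen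
    rw [h3] at h
    exact h
  refine ⟨(ι : Fc →+* LS F), ⟨hbase, ?_, ?_⟩⟩
  · intro a
    show ι (c.lam a) = Lam a
    rw [hlamcar a, hev, hLamcar a]
  · intro y
    show KR k (ι y)
    obtain ⟨b, f, hb, hbf⟩ := c.gen y
    have hb' : (iA b : LS F) ≠ 0 := by
      intro h
      exact hb ((map_eq_zero_iff _ hinj).mp h)
    have h1 : (iA b : LS F) * ι y = eval₂ (iA : k[X] →+* LS F) (Lam 1) f := by
      rw [← hev, ← hbf, map_mul, hbase]
    have h2 : ι y = eval₂ (iA : k[X] →+* LS F) (Lam 1) f / iA b := by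
      rw [← h1, mul_div_cancel_left₀ _ hb']
    rw [h2, Pool.Agent.W672.GK.kr_iff]
    refine div_mem ?_ ((Pool.Agent.W672.GK.kr_iff _).mp (Pool.Agent.W672.GK.kr_iA b))
    rw [eval₂_eq_sum_range]
    refine sum_mem fun i _ => mul_mem ?_ (pow_mem ?_ i)
    · exact (Pool.Agent.W672.GK.kr_iff _).mp (Pool.Agent.W672.GK.kr_iA _)
    · exact (Pool.Agent.W672.GK.kr_iff _).mp (hL.rat 1)

end Pool.Agent.W765.GK.Embd
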